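import Pool.Agent.helper10.FQ.NH
import Pool.Agent.helper93.FQ.N2
import Pool.Agent.helper97.FQ.NE
import Pool.Agent.helper97.FQ.PT
import Pool.Agent.helper54.QR.GB

/-! # Project FQ, module D2: decompositions modulo `D` with at most two primes -/

namespace Pool.Agent.helper76.LP

open Finset

/-- from lists to the set of prime factors -/
lemma D2_ndec_of_gdec (D : ℕ) [NeZero D] (L : List ℕ) (hLn : L.Nodup)
    (hL : L.toFinset = D.primeFactors) (f : (ZMod D)ˣ → ℤ) (h : GDec (Gam D) L (-1) f) :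
    NDec D f := by
  obtain ⟨N, h1, h2, h3⟩ := h
  have hmem : ∀ p, p ∈ D.primeFactors ↔ p ∈ L := by
    intro p; rw [← hL, List.mem_toFinset]
  refine ⟨N, fun p hp u hu x => h1 p ((hmem p).1 hp) u hu x, ?_, ?_⟩
  · intro x
    rw [h2 x, ← hL, List.sum_toFinset _ hLn]
  · intro p hp x
    have := h3 p ((hmem p).1 hp) x
    rwa [neg_one_mul] at this

theorem ndec_two (D p q : ℕ) [NeZero D] (hpq : p ≠ q) (hD : D.primeFactors = {p, q})
    (hc : D.totient = Nat.card (Gam D p) * Nat.card (Gam D q)) (ν : (ZMod D)ˣ)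
    (h1 : ν ∈ Gam D p) (h2 : -ν ∈ Gam D q) (hν : ν * ν = 1) (f : (ZMod D)ˣ → ℤ)
    (hodd : ∀ x, f (-x) = - f x) (hf : MDv (Gam D) [p, q] f) (hev : Even (f 1 + f ν)) :
    NDec D f := by
  have hLn : [p, q].Nodup := by simp [hpq]
  have hL : [p, q].toFinset = D.primeFactors := by rw [hD]; simp
  have hI : Indep (Gam D) [p, q] := indep_Gam D _ hLn fun r hr => by
    rw [← hL, List.mem_toFinset]; exact hr
  have htop : Pl (Gam D) [p, q] = ⊤ := by
    apply Pl_eq_top (Gam D) [p, q] hI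
    rw [Nat.card_eq_fintype_card, ZMod.card_units_eq_totient, hc]
    simp
  have htop' : Gam D p ⊔ Gam D q = ⊤ := by
    simpa [Pl] using htop
  have hm : ν * -ν = -1 := by rw [mul_neg, hν]
  apply D2_ndec_of_gdec D [p, q] hLn hL f
  rw [← hm]
  apply nd_two (Gam D) p q hpq htop' ν (-ν) h1 h2 hν (by rw [neg_mul_neg, hν]) f _ hf hev
  intro x
  rw [hm, neg_one_mul, hodd]

/-- zero or one prime -/
theorem ndec_one (D : ℕ) [NeZero D] (hcard : D.primeFactors.card ≤ 1)
    (L : List ℕ) (hLn : L.Nodup) (hL : L.toFinset = D.primeFactors)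
    (h : (-1 : (ZMod D)ˣ) ∈ Pl (Gam D) L) (f : (ZMod D)ˣ → ℤ) (hodd : ∀ x, f (-x) = - f x)
    (hf : MDv (Gam D) L f) : NDec D f := by
  apply D2_ndec_of_gdec D L hLn hL f
  have hlen : L.length ≤ 1 := by
    rw [← List.toFinset_card_of_nodup hLn, hL]; exact hcard
  match L, hlen, hf with
  | [], _, hf =>
    refine ⟨fun _ _ => 0, by simp, fun x => ?_, by simp⟩
    simpa using hf x
  | [p], _, hf =>
    refine ⟨fun _ x => f x, ?_, fun x => by simp, fun i _ x => by
      show f (-1 * x) = - f x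
      rw [neg_one_mul, hodd]⟩
    intro i hi u hu x
    rw [List.mem_singleton] at hi
    subst hi
    have := hf u hu x
    exact sub_eq_zero.1 this

/-- `-1` not in the product -/
theorem ndec_half (D : ℕ) [NeZero D] (L : List ℕ) (hLn : L.Nodup)
    (hL : L.toFinset = D.primeFactors)
    (h : (-1 : (ZMod D)ˣ) ∉ Pl (Gam D) L) (f : (ZMod D)ˣ → ℤ) (hodd : ∀ x, f (-x) = - f x)
    (hf : MDv (Gam D) L f) : NDec D f := by
  have hI : Indep (Gam D) L := indep_Gam D _ hLn fun r hr => by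
    rw [← hL, List.mem_toFinset]; exact hr
  apply D2_ndec_of_gdec D L hLn hL f
  apply nd_half (Gam D) L (-1) (by simp) h f (fun x => by rw [neg_one_mul, hodd])
  exact nd_exists (Gam D) L hLn hI f hf

end Pool.Agent.helper76.LP
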