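import Pool.Agent.helper76.LP.Defs3

/-! # Project FQ, module NH: odd decomposition when `e` is not in the product -/

namespace Pool.Agent.helper76.LP

open Finset

/-- `Γ i ≤ Pl Γ L` for `i` in the list -/
lemma NH_le_Pl {G ι : Type*} [CommGroup G] (Γ : ι → Subgroup G) (L : List ι) (i : ι)
    (hi : i ∈ L) : Γ i ≤ Pl Γ L := by
  induction L with
  | nil => simp at hi
  | cons j L ih =>
    rw [Pl]
    rcases List.mem_cons.1 hi with h | h
    · subst h; exact le_sup_left
    · exact (ih h).trans le_sup_right

theorem nd_half {G ι : Type*} [CommGroup G] (Γ : ι → Subgroup G) (L : List ι) (e : G)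
    (he : e * e = 1) (heP : e ∉ Pl Γ L) (f : G → ℤ) (hodd : ∀ x, f (e * x) = - f x)
    (h : GDec0 Γ L f) : GDec Γ L e f := by
  classical
  obtain ⟨N, hN1, hN2⟩ := h
  set P := Pl Γ L with hP
  let q : G → G ⧸ P := fun x => QuotientGroup.mk x
  let A : G → Prop := fun x => WellOrderingRel (q x) (q (e * x))
  have hq : ∀ x, q x ≠ q (e * x) := by
    intro x hx
    apply heP
    have := QuotientGroup.eq.1 hx
    have h2 : x⁻¹ * (e * x) = e := by rw [mul_comm e x, inv_mul_cancel_left]
    rwa [h2] at this
  have hee : ∀ x, e * (e * x) = x := fun x => by rw [← mul_assoc, he, one_mul]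
  have hA1 : ∀ u ∈ P, ∀ x, A (u * x) ↔ A x := by
    intro u hu x
    have key : ∀ y, q (u * y) = q y := by
      intro y
      apply QuotientGroup.eq.2
      have : (u * y)⁻¹ * y = u⁻¹ := by
        rw [mul_comm u y, mul_inv_rev, mul_assoc, inv_mul_cancel, mul_one]
      rw [this]; exact P.inv_mem hu
    show WellOrderingRel (q (u * x)) (q (e * (u * x))) ↔ WellOrderingRel (q x) (q (e * x))
    rw [key x, mul_left_comm e u x, key (e * x)]
  have hA2 : ∀ x, A (e * x) ↔ ¬ A x := by
    intro x
    show WellOrderingRel (q (e * x)) (q (e * (e * x))) ↔ ¬ WellOrderingRel (q x) (q (e * x))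
    rw [hee x]
    constructor
    · intro h1 h2
      exact asymm h1 h2
    · intro h1
      rcases trichotomous_of WellOrderingRel (q x) (q (e * x)) with h2 | h2 | h2
      · exact absurd h2 h1
      · exact absurd h2 (hq x)
      · exact h2
  refine ⟨fun i x => if A x then N i x else - N i (e * x), ?_, ?_, ?_⟩
  · intro i hi u hu x
    have huP : u ∈ P := NH_le_Pl Γ L i hi hu
    simp only [hA1 u huP x]
    split_ifs
    · exact hN1 i hi u hu x
    · rw [mul_left_comm e u x, hN1 i hi u hu]
  · intro x
    by_cases hx : A x
    · simp only [hx, if_true]; exact hN2 x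
    · simp only [hx, if_false]
      have h1 := hN2 (e * x)
      rw [hodd] at h1
      have h2 : ∀ L' : List ι, (L'.map (fun i => - N i (e * x))).sum =
          - (L'.map (fun i => N i (e * x))).sum := by
        intro L'
        induction L' with
        | nil => simp
        | cons a L' ih => simp only [List.map_cons, List.sum_cons, ih]; ring
      rw [h2, ← h1, neg_neg]
  · intro i hi x
    by_cases hx : A x
    · have h1 : ¬ A (e * x) := fun h => (hA2 x).1 h hx
      simp only [hx, h1, if_true, if_false, hee]
    · have h1 : A (e * x) := (hA2 x).2 hx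
      simp only [hx, h1, if_true, if_false, neg_neg]

end Pool.Agent.helper76.LP
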